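import Mathlib

set_option autoImplicit false
open Filter

namespace Pool.Agent.W_MP_420c7c_nt

lemma factorial_two_pow_le (k : ℕ) : k.factorial * 2 ^ k ≤ (k + 1) ^ k := by
  induction k with
  | zero => simp
  | succ k ih =>
    have h1 : 2 * (k + 1) ^ (k + 1) ≤ (k + 2) ^ (k + 1) := by
      have hb := one_add_mul_le_pow (a := (1 / ((k : ℝ) + 1))) (by
        have : (0 : ℝ) ≤ 1 / ((k : ℝ) + 1) := by positivity
        linarith) (k + 1)
      have hk : ((k : ℝ) + 1) ≠ 0 := by positivity
      have h2 : (1 : ℝ) + ((k + 1 : ℕ) : ℝ) * (1 / ((k : ℝ) + 1)) = 2 := by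
        push_cast; field_simp; norm_num
      rw [h2] at hb
      have h3 : (2 : ℝ) * ((k : ℝ) + 1) ^ (k + 1) ≤ ((k : ℝ) + 2) ^ (k + 1) := by
        have h4 : ((k : ℝ) + 2) = ((k : ℝ) + 1) * (1 + 1 / ((k : ℝ) + 1)) := by
          field_simp; ring
        rw [h4, mul_pow, mul_comm]
        exact mul_le_mul_of_nonneg_left hb (by positivity)
      exact_mod_cast h3
    calc (k + 1).factorial * 2 ^ (k + 1) = 2 * (k + 1) * (k.factorial * 2 ^ k) := by
          rw [Nat.factorial_succ, pow_succ]; ring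
      _ ≤ 2 * (k + 1) * (k + 1) ^ k := Nat.mul_le_mul_left _ ih
      _ = 2 * (k + 1) ^ (k + 1) := by ring
      _ ≤ (k + 2) ^ (k + 1) := h1

lemma final_ineq : ∀ᶠ t : ℝ in atTop, ∀ (y k : ℕ) (P : ℝ), 1.03 * t ^ 2 ≤ (y : ℝ) →
    (y : ℝ) ≤ 1.05 * t ^ 2 → (k : ℝ) * Real.log y ≤ t → t - 1 ≤ ((k : ℝ) + 1) * Real.log y →
    ((y : ℝ) * Real.log 2 - Real.log ((y : ℝ) + 1)) / Real.log y ≤ P →
    t / 2 < (k : ℝ) * (Real.log 2 + Real.log P - Real.log ((k : ℝ) + 1)) := by
  have e1 : ∀ᶠ t : ℝ in atTop, Real.log t ≤ 0.001 * t := by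
    have := Real.isLittleO_log_id_atTop.bound (show (0 : ℝ) < 0.001 by norm_num)
    filter_upwards [this, eventually_ge_atTop 1] with t ht h1
    have h2 : 0 ≤ Real.log t := Real.log_nonneg h1
    simpa [abs_of_nonneg h2, abs_of_nonneg (by linarith : (0 : ℝ) ≤ t)] using ht
  have e2 : ∀ᶠ t : ℝ in atTop, Real.log t ^ 2 ≤ 0.001 * t := by
    have := (Real.isLittleO_pow_log_id_atTop (n := 2)).bound (show (0 : ℝ) < 0.001 by norm_num)
    filter_upwards [this, eventually_ge_atTop 1] with t ht h1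
    have h2 : 0 ≤ Real.log t := Real.log_nonneg h1
    simpa [abs_of_nonneg h2, abs_of_nonneg (by linarith : (0 : ℝ) ≤ t)] using ht
  filter_upwards [e1, e2, eventually_ge_atTop (100000 : ℝ)] with t h1 h2 h3 y k P hy1 hy2 hk1 hk2 hP
  have hl2 : (0.6931 : ℝ) < Real.log 2 := by have := Real.log_two_gt_d9; linarith
  have hl2' : Real.log 2 < 0.6932 := by have := Real.log_two_lt_d9; linarith
  have ht0 : 0 < t := by linarith
  have hypos : (0 : ℝ) < y := by nlinarith
  have hlogt : 1 ≤ Real.log t := by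
    rw [Real.le_log_iff_exp_le ht0]
    have := Real.exp_one_lt_d9
    linarith
  set l := Real.log y with hl
  have hlub : l ≤ 2 * Real.log t + 0.05 := by
    have : l ≤ Real.log (1.05 * t ^ 2) := Real.log_le_log hypos hy2
    rw [Real.log_mul (by norm_num) (by positivity), Real.log_pow] at this
    have h4 : Real.log 1.05 ≤ 0.05 := by
      have := Real.log_le_sub_one_of_pos (show (0 : ℝ) < 1.05 by norm_num)
      linarith
    push_cast at this
    linarith
  have hllb : 1 ≤ l := by
    have : Real.log t ≤ l := Real.log_le_log ht0 (by nlinarith)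
    linarith
  have hl0 : 0 < l := by linarith
  -- bound for log (y + 1)
  have hl1 : Real.log ((y : ℝ) + 1) ≤ l + 0.001 := by
    have h5 : (y : ℝ) + 1 = y * (1 + 1 / y) := by field_simp
    rw [h5, Real.log_mul (by positivity) (by positivity)]
    have h6 : Real.log (1 + 1 / (y : ℝ)) ≤ 1 / (y : ℝ) := by
      have := Real.log_le_sub_one_of_pos (show (0 : ℝ) < 1 + 1 / (y : ℝ) by positivity)
      linarith
    have h7 : 1 / (y : ℝ) ≤ 0.001 := by
      rw [div_le_iff₀ hypos]; nlinarith
    linarith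
  -- lower bound for P
  have hPl : 0.693 * (y : ℝ) / l ≤ P := by
    refine le_trans ?_ hP
    apply div_le_div_of_nonneg_right _ hl0.le
    have : l + 0.001 ≤ 0.0001 * (y : ℝ) := by nlinarith
    nlinarith
  have hPpos : 0 < P := lt_of_lt_of_le (by positivity) hPl
  have hk0 : (0 : ℝ) ≤ k := Nat.cast_nonneg k
  -- k is large
  have hkl : (t - 1) / l - 1 ≤ (k : ℝ) := by
    rw [sub_le_iff_le_add, div_le_iff₀ hl0]; exact hk2
  have hk3 : ((k : ℝ) + 1) * l ≤ 1.003 * t := by nlinarith
  -- main ratio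
  have hratio : 1.38 * Real.sqrt y ≤ 2 * P / ((k : ℝ) + 1) := by
    have hs : Real.sqrt y ^ 2 = y := Real.sq_sqrt hypos.le
    have hs0 : 0 < Real.sqrt y := Real.sqrt_pos.mpr hypos
    have hst : t ≤ Real.sqrt y / 1.0148 := by
      rw [le_div_iff₀ (by norm_num)]
      apply Real.le_sqrt_of_sq_le
      nlinarith
    rw [le_div_iff₀ (by positivity)]
    have hPl' : 0.693 * (y : ℝ) ≤ P * l := by
      rwa [div_le_iff₀ hl0] at hPl
    -- 1.38 sqrt y (k+1) ≤ 2 P ; multiply by l
    have h8 : 1.38 * Real.sqrt y * ((k : ℝ) + 1) * l ≤ 2 * P * l := by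
      have h9 : 1.38 * Real.sqrt y * ((k : ℝ) + 1) * l ≤ 1.38 * Real.sqrt y * (1.003 * (Real.sqrt y / 1.0148)) := by
        have : ((k : ℝ) + 1) * l ≤ 1.003 * (Real.sqrt y / 1.0148) := by linarith
        calc 1.38 * Real.sqrt y * ((k : ℝ) + 1) * l = 1.38 * Real.sqrt y * (((k : ℝ) + 1) * l) := by ring
          _ ≤ _ := mul_le_mul_of_nonneg_left this (by positivity)
      have h10 : 1.38 * Real.sqrt y * (1.003 * (Real.sqrt y / 1.0148)) = 1.38 * 1.003 / 1.0148 * y := by
        have hs' : Real.sqrt y * Real.sqrt y = y := Real.mul_self_sqrt hypos.le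
        calc 1.38 * Real.sqrt y * (1.003 * (Real.sqrt y / 1.0148))
            = 1.38 * 1.003 / 1.0148 * (Real.sqrt y * Real.sqrt y) := by ring
          _ = _ := by rw [hs']
      rw [h10] at h9
      have : (1.38 * 1.003 / 1.0148 : ℝ) * y ≤ 2 * (0.693 * (y : ℝ)) := by
        have : (1.38 * 1.003 / 1.0148 : ℝ) ≤ 2 * 0.693 := by norm_num
        nlinarith
      linarith
    exact le_of_mul_le_mul_right h8 hl0
  have hlogratio : 0.32 + l / 2 ≤ Real.log 2 + Real.log P - Real.log ((k : ℝ) + 1) := by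
    have h11 : Real.log (1.38 * Real.sqrt y) ≤ Real.log (2 * P / ((k : ℝ) + 1)) :=
      Real.log_le_log (by positivity) hratio
    rw [Real.log_mul (by norm_num) (by positivity), Real.log_sqrt hypos.le,
      Real.log_div (by positivity) (by positivity), Real.log_mul (by norm_num) (by positivity)] at h11
    have h12 : (0.32 : ℝ) ≤ Real.log 1.38 := by
      rw [Real.le_log_iff_exp_le (by norm_num)]
      have h13 := Real.exp_bound' (x := (0.32 : ℝ)) (by norm_num) (by norm_num) (n := 4) (by norm_num)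
      refine le_trans h13 ?_
      simp [Finset.sum_range_succ, Nat.factorial]
      norm_num
    linarith
  have h14 : (k : ℝ) * (0.32 + l / 2) ≤ (k : ℝ) * (Real.log 2 + Real.log P - Real.log ((k : ℝ) + 1)) :=
    mul_le_mul_of_nonneg_left hlogratio hk0
  refine lt_of_lt_of_le ?_ h14
  -- t/2 < 0.32 k + k l / 2, with (k+1) l ≥ t - 1
  have h15 : (t - 1) / 2 ≤ (k : ℝ) * l / 2 + l / 2 := by linarith
  have h16 : l / 2 + 1 / 2 < 0.32 * (k : ℝ) := by
    have hlub' : l ≤ 2.05 * Real.log t := by linarith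
    have h17 : l ^ 2 ≤ (2.05 * Real.log t) ^ 2 := pow_le_pow_left₀ hl0.le hlub' 2
    have h17' : l ^ 2 ≤ 0.005 * t := by
      rw [mul_pow] at h17
      linarith
    have h18 : 2 * l + 10 ≤ (t - 1) / l := by
      rw [le_div_iff₀ hl0]
      have : (2 * l + 10) * l = 2 * l ^ 2 + 10 * l := by ring
      rw [this]
      linarith
    linarith
  linarith


/-- many distinct products of `k` primes up to `y`. -/
lemma products_card (y k : ℕ) : ∃ S : Finset ℕ,
    (∀ a ∈ S, 1 ≤ a ∧ a ≤ y ^ k ∧ ∀ q, q.Prime → q ∣ a → q ≤ y) ∧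
    ((y.primeCounting : ℝ)) ^ k / (k.factorial : ℝ) ≤ (S.card : ℝ) := by
  classical
  let P := {q : ℕ // q ∈ Nat.primesLE y}
  have hcard : Fintype.card P = y.primeCounting := by
    rw [Fintype.card_coe, Nat.primesLE_card_eq_primeCounting]
  let g : P → ℕ := Subtype.val
  let f : Sym P k → ℕ := fun s => (Multiset.map g (s : Multiset P)).prod
  have hPp : ∀ q : P, (g q).Prime := fun q => Nat.prime_of_mem_primesLE q.2
  have hPy : ∀ q : P, g q ≤ y := fun q => Nat.le_of_mem_primesLE q.2
  have hf : Function.Injective f := by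
    intro s t hst
    have h1 : Multiset.map g (s : Multiset P) = Multiset.map g (t : Multiset P) := by
      have hs : Nat.primeFactorsList (f s) = Nat.primeFactorsList (f t) := by rw [hst]
      have key : ∀ u : Sym P k, ((Nat.primeFactorsList (f u) : List ℕ) : Multiset ℕ) =
          Multiset.map g (u : Multiset P) := by
        intro u
        have := Nat.primeFactorsList_unique (n := f u)
          (l := (Multiset.map g (u : Multiset P)).toList) (by
            rw [Multiset.prod_toList]) (by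
            intro p hp
            rw [Multiset.mem_toList, Multiset.mem_map] at hp
            obtain ⟨q, _, rfl⟩ := hp
            exact hPp q)
        have h2 := Multiset.coe_eq_coe.mpr this
        rw [Multiset.coe_toList] at h2
        exact h2.symm
      rw [← key s, ← key t, hs]
    have h2 := Multiset.map_injective Subtype.val_injective h1
    exact Sym.coe_injective h2
  refine ⟨Finset.univ.image f, ?_, ?_⟩
  · intro a ha
    rw [Finset.mem_image] at ha
    obtain ⟨s, _, rfl⟩ := ha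
    refine ⟨?_, ?_, ?_⟩
    · apply Nat.one_le_iff_ne_zero.mpr
      simp only [f, ne_eq, Multiset.prod_eq_zero_iff, Multiset.mem_map, not_exists, not_and]
      intro q _
      exact (hPp q).ne_zero
    · have := Multiset.prod_le_pow_card (Multiset.map g (s : Multiset P)) y (by
        intro x hx
        rw [Multiset.mem_map] at hx
        obtain ⟨q, _, rfl⟩ := hx
        exact hPy q)
      rw [Multiset.card_map, Sym.card_coe] at this
      exact this
    · intro q hq hqd
      obtain ⟨b, hb, hqb⟩ := hq.prime.exists_mem_multiset_dvd hqd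
      rw [Multiset.mem_map] at hb
      obtain ⟨r, hr, rfl⟩ := hb
      have := (Nat.prime_dvd_prime_iff_eq hq (hPp r)).mp hqb
      rw [this]
      exact hPy r
  · rw [Finset.card_image_of_injective _ hf, Finset.card_univ, Sym.card_sym_eq_choose, hcard]
    rcases Nat.eq_zero_or_pos k with h | h
    · subst h; simp
    · have := Nat.pow_le_choose (α := ℝ) k (y.primeCounting + k - 1)
      rw [show y.primeCounting + k - 1 + 1 - k = y.primeCounting by omega] at this
      exact this

/-- There are more than `√x` positive integers below `x` composed of primes `q ≤ (log₂ x)² / 2`. -/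
lemma smooth_count : ∃ x0 : ℕ, ∀ x : ℕ, x0 ≤ x → ∃ S : Finset ℕ,
    (∀ a ∈ S, 1 ≤ a ∧ a < x ∧ ∀ q : ℕ, q.Prime → q ∣ a → 2 * (q : ℝ) ≤ (Real.logb 2 (x : ℝ)) ^ 2) ∧
    Real.sqrt (x : ℝ) < (S.card : ℝ) := by
  have h0 : Tendsto (fun x : ℕ => Real.log (x : ℝ)) atTop atTop :=
    Real.tendsto_log_atTop.comp tendsto_natCast_atTop_atTop
  have hev := (h0.eventually final_ineq).and (h0.eventually (eventually_ge_atTop (1000 : ℝ)))
  obtain ⟨x0, hx0⟩ := (hev.and (eventually_ge_atTop 10)).exists_forall_of_atTop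
  refine ⟨x0, fun x hx => ?_⟩
  obtain ⟨⟨hfin, hbig⟩, hx10⟩ := hx0 x hx
  set t := Real.log (x : ℝ) with ht
  have hl2 : (0.6931 : ℝ) < Real.log 2 := by have := Real.log_two_gt_d9; linarith
  have hl2' : Real.log 2 < 0.6932 := by have := Real.log_two_lt_d9; linarith
  have hl20 : (0 : ℝ) < Real.log 2 := by linarith
  have hlogb : Real.logb 2 (x : ℝ) = t / Real.log 2 := rfl
  have hsq : (Real.logb 2 (x : ℝ)) ^ 2 / 2 = t ^ 2 / (2 * (Real.log 2) ^ 2) := by
    rw [hlogb, div_pow]; field_simp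
  set y := ⌊(Real.logb 2 (x : ℝ)) ^ 2 / 2⌋₊ with hy
  have hy_le : (y : ℝ) ≤ (Real.logb 2 (x : ℝ)) ^ 2 / 2 := Nat.floor_le (by positivity)
  have hy_ge : (Real.logb 2 (x : ℝ)) ^ 2 / 2 < (y : ℝ) + 1 := Nat.lt_floor_add_one _
  have hd : 0.96077 < 2 * (Real.log 2) ^ 2 := by nlinarith
  have hd' : 2 * (Real.log 2) ^ 2 < 0.9611 := by nlinarith
  have hdpos : 0 < 2 * (Real.log 2) ^ 2 := by positivity
  have h1 : 1.03 * t ^ 2 ≤ (y : ℝ) := by
    rw [hsq] at hy_ge
    have : 1.04 * t ^ 2 ≤ t ^ 2 / (2 * (Real.log 2) ^ 2) := by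
      rw [le_div_iff₀ hdpos]; nlinarith
    nlinarith
  have h2 : (y : ℝ) ≤ 1.05 * t ^ 2 := by
    rw [hsq] at hy_le
    have : t ^ 2 / (2 * (Real.log 2) ^ 2) ≤ 1.05 * t ^ 2 := by
      rw [div_le_iff₀ hdpos]; nlinarith
    linarith
  set k := Nat.log y (x - 1) with hk
  have hy2 : 1 < y := by
    have : (1 : ℝ) < y := by nlinarith
    exact_mod_cast this
  have hx1 : x - 1 ≠ 0 := by omega
  have hpow1 : y ^ k ≤ x - 1 := Nat.pow_log_le_self y hx1
  have hpow2 : x - 1 < y ^ (k + 1) := Nat.lt_pow_succ_log_self hy2 _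
  have hxpos : (0 : ℝ) < (x : ℝ) := by positivity
  have hypos : (0 : ℝ) < (y : ℝ) := by positivity
  have h3 : (k : ℝ) * Real.log y ≤ t := by
    have : ((y ^ k : ℕ) : ℝ) ≤ (x : ℝ) := by exact_mod_cast (by omega : y ^ k ≤ x)
    have h := Real.log_le_log (by positivity) this
    push_cast at h
    rwa [Real.log_pow] at h
  have h4 : t - 1 ≤ ((k : ℝ) + 1) * Real.log y := by
    have h5 : (x : ℝ) ≤ ((y ^ (k + 1) : ℕ) : ℝ) := by exact_mod_cast (by omega : x ≤ y ^ (k + 1))
    have h := Real.log_le_log hxpos h5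
    push_cast at h
    rw [Real.log_pow] at h
    push_cast at h
    linarith
  have h5 := Chebyshev.pi_ge y
  have h6 := hfin y k (y.primeCounting : ℝ) h1 h2 h3 h4 h5
  obtain ⟨S, hS, hScard⟩ := products_card y k
  refine ⟨S, ?_, ?_⟩
  · intro a ha
    obtain ⟨ha1, ha2, ha3⟩ := hS a ha
    refine ⟨ha1, by omega, fun q hq hqa => ?_⟩
    have : (q : ℝ) ≤ y := by exact_mod_cast ha3 q hq hqa
    linarith
  · refine lt_of_lt_of_le ?_ hScard
    -- (k+1)^k ≥ k! 2^k
    have hk1 : (0 : ℝ) < (k : ℝ) + 1 := by positivity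
    have hPpos : (0 : ℝ) < (y.primeCounting : ℝ) := by
      have : 0 < y.primeCounting := by
        have h7 := Nat.monotone_primeCounting (show 2 ≤ y by omega)
        have h8 : Nat.primeCounting 2 ≠ 0 := by
          rw [Ne, Nat.primeCounting_eq_zero_iff]; norm_num
        omega
      exact_mod_cast this
    have hfac : (k.factorial : ℝ) * 2 ^ k ≤ ((k : ℝ) + 1) ^ k := by
      exact_mod_cast factorial_two_pow_le k
    have h7 : (2 * (y.primeCounting : ℝ) / ((k : ℝ) + 1)) ^ k ≤
        (y.primeCounting : ℝ) ^ k / (k.factorial : ℝ) := by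
      rw [div_pow, mul_pow, div_le_div_iff₀ (by positivity) (by positivity)]
      calc (2 : ℝ) ^ k * (y.primeCounting : ℝ) ^ k * (k.factorial : ℝ)
          = (y.primeCounting : ℝ) ^ k * ((k.factorial : ℝ) * 2 ^ k) := by ring
        _ ≤ _ := mul_le_mul_of_nonneg_left hfac (by positivity)
    refine lt_of_lt_of_le ?_ h7
    rw [← Real.log_lt_log_iff (by positivity) (by positivity), Real.log_sqrt hxpos.le,
      Real.log_pow, Real.log_div (by positivity) (by positivity),
      Real.log_mul (by norm_num) (by positivity)]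
    exact h6

end Pool.Agent.W_MP_420c7c_nt
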