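import Pool.Agent.W_MP_420c7c_nt.FermatAll
import Pool.Agent.W_MP_420c7c_nt.Smooth

set_option autoImplicit false
open Polynomial

namespace Pool.Agent.W_MP_420c7c_nt

/-- smooth numbers satisfy the Fermat congruence modulo `n`. -/
lemma smooth_fermat {n : ℕ}
    (hF : ∀ l : ℕ, l.Prime → 2 * (l : ℝ) ≤ (Real.logb 2 (n : ℝ)) ^ 2 →
      ¬ l ∣ n ∧ l ^ (n - 1) ≡ 1 [MOD n]) (a : ℕ) (ha : 1 ≤ a)
    (hs : ∀ q : ℕ, q.Prime → q ∣ a → 2 * (q : ℝ) ≤ (Real.logb 2 (n : ℝ)) ^ 2) :
    a ^ (n - 1) ≡ 1 [MOD n] := by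
  induction a using Nat.recOnMul with
  | zero => omega
  | one => simp; rfl
  | prime q hq => exact (hF q hq (hs q hq dvd_rfl)).2
  | mul a b iha ihb =>
    have ha' : 1 ≤ a := by
      rcases Nat.eq_zero_or_pos a with h | h
      · subst h; simp at ha
      · exact h
    have hb' : 1 ≤ b := by
      rcases Nat.eq_zero_or_pos b with h | h
      · subst h; simp at ha
      · exact h
    rw [mul_pow]
    have := (iha ha' fun q hq hqa => hs q hq (hqa.mul_right b)).mul
      (ihb hb' fun q hq hqb => hs q hq (hqb.mul_left a))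
    simpa using this

lemma logb_sq_mono {a b : ℕ} (ha : 1 ≤ a) (hab : a ≤ b) :
    (Real.logb 2 (a : ℝ)) ^ 2 ≤ (Real.logb 2 (b : ℝ)) ^ 2 := by
  have h1 : 0 ≤ Real.logb 2 (a : ℝ) := Real.logb_nonneg (by norm_num) (by exact_mod_cast ha)
  have h2 : Real.logb 2 (a : ℝ) ≤ Real.logb 2 (b : ℝ) :=
    Real.logb_le_logb_of_le (by norm_num) (by exact_mod_cast ha) (by exact_mod_cast hab)
  exact pow_le_pow_left₀ h1 h2 2

/-- A prime factor of a large composite `n` with (C) is large. -/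
lemma exists_large (x0 : ℕ) : ∃ N : ℕ, ∀ n : ℕ, N ≤ n →
    2 * (x0 : ℝ) ≤ (Real.logb 2 (n : ℝ)) ^ 2 := by
  refine ⟨2 ^ (2 * x0 + 1), fun n hn => ?_⟩
  have h1 : ((2 * x0 + 1 : ℕ) : ℝ) ≤ Real.logb 2 (n : ℝ) := by
    rw [Real.le_logb_iff_rpow_le (by norm_num) (by
      have : 0 < n := lt_of_lt_of_le (by positivity) hn
      exact_mod_cast this)]
    rw [Real.rpow_natCast]
    exact_mod_cast hn
  push_cast at h1
  have : (0 : ℝ) ≤ (x0 : ℝ) := Nat.cast_nonneg _
  nlinarith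

/-- **Squarefreeness.** -/
theorem squarefree_of_cond : ∃ N : ℕ, ∀ n : ℕ, N ≤ n →
    (∀ r : ℕ, 1 ≤ r → (r : ℝ) ≤ (Real.logb 2 (n : ℝ)) ^ 2 →
          ((X : (ZMod n)[X]) ^ r - 1) ∣ ((1 + X) ^ n - (1 + X ^ n))) → Squarefree n := by
  obtain ⟨x0, hx0⟩ := smooth_count
  obtain ⟨N, hN⟩ := exists_large (x0 + 2)
  refine ⟨max N 2, fun n hn hC => ?_⟩
  have hn2 : 2 ≤ n := le_trans (le_max_right _ _) hn
  have hnN : N ≤ n := le_trans (le_max_left _ _) hn
  by_cases hnp : n.Prime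
  · exact hnp.prime.squarefree
  have hF := fermat_all hn2 hnp hC
  rw [Nat.squarefree_iff_prime_squarefree]
  intro p hp hpp
  have hpn : p ∣ n := dvd_trans (dvd_mul_right p p) hpp
  -- p is large
  have hplarge : x0 + 2 < p := by
    by_contra hle
    push Not at hle
    have h1 : (p : ℝ) ≤ ((x0 + 2 : ℕ) : ℝ) := by exact_mod_cast hle
    have h2 := hN n hnN
    exact (hF p hp (by linarith)).1 hpn
  have hp2 : p * p ≤ n := Nat.le_of_dvd (by omega) hpp
  obtain ⟨S, hS, hScard⟩ := hx0 (p * p) (by nlinarith)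
  have : Fact p.Prime := ⟨hp⟩
  have hcyc : IsCyclic (ZMod (p ^ 2))ˣ := ZMod.isCyclic_units_of_prime_pow p hp (by omega) 2
  have hp2ne : NeZero (p ^ 2) := ⟨pow_ne_zero 2 hp.ne_zero⟩
  -- the map into the units killed by p - 1
  have hcop : ∀ a ∈ S, Nat.Coprime a (p ^ 2) := by
    intro a ha
    obtain ⟨ha1, ha2, ha3⟩ := hS a ha
    apply Nat.Coprime.pow_right
    rw [Nat.coprime_comm, Nat.Prime.coprime_iff_not_dvd hp]
    intro hpa
    have h1 := ha3 p hp hpa
    exact (hF p hp (le_trans h1 (logb_sq_mono (by nlinarith) hp2))).1 hpn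
  classical
  let f : S → (ZMod (p ^ 2))ˣ := fun a => ZMod.unitOfCoprime (a : ℕ) (hcop a a.2)
  have hf : Function.Injective f := by
    intro a b hab
    have h1 := congrArg (fun u : (ZMod (p ^ 2))ˣ => (u : ZMod (p ^ 2))) hab
    simp only [f, ZMod.coe_unitOfCoprime] at h1
    rw [ZMod.natCast_eq_natCast_iff] at h1
    have ha := (hS a a.2).2.1
    have hb := (hS b b.2).2.1
    rw [← pow_two] at ha hb
    exact Subtype.ext (Nat.ModEq.eq_of_lt_of_lt h1 ha hb)
  have hord : ∀ a : S, f a ^ (p - 1) = 1 := by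
    intro a
    obtain ⟨ha1, ha2, ha3⟩ := hS a a.2
    have h1 := smooth_fermat hF a ha1 fun q hq hqa =>
      le_trans (ha3 q hq hqa) (logb_sq_mono (by nlinarith) hp2)
    have h2 : (a : ℕ) ^ (n - 1) ≡ 1 [MOD (p ^ 2)] := h1.of_dvd (by rw [pow_two]; exact hpp)
    have h3 : f a ^ (n - 1) = 1 := by
      apply Units.ext
      simp only [f, Units.val_pow_eq_pow_val, ZMod.coe_unitOfCoprime, Units.val_one]
      rw [← ZMod.natCast_eq_natCast_iff] at h2
      push_cast at h2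
      exact h2
    have h4 : f a ^ (p * (p - 1)) = 1 := by
      have := ZMod.pow_totient (f a)
      rwa [Nat.totient_prime_pow hp (by norm_num), show 2 - 1 = 1 by norm_num, pow_one] at this
    have h5 : orderOf (f a) ∣ n - 1 := orderOf_dvd_of_pow_eq_one h3
    have h6 : orderOf (f a) ∣ p * (p - 1) := orderOf_dvd_of_pow_eq_one h4
    have h7 : Nat.Coprime (n - 1) p := by
      rw [Nat.coprime_comm, Nat.Prime.coprime_iff_not_dvd hp]
      intro hpd
      have h8 : p ∣ n - (n - 1) := Nat.dvd_sub hpn hpd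
      rw [show n - (n - 1) = 1 by omega] at h8
      exact hp.one_lt.ne' (Nat.dvd_one.mp h8)
    have h8 : Nat.Coprime (orderOf (f a)) p := Nat.Coprime.coprime_dvd_left h5 h7
    exact orderOf_dvd_iff_pow_eq_one.mp (h8.dvd_of_dvd_mul_left h6)
  have hcard : S.card ≤ p - 1 := by
    have h1 := IsCyclic.card_pow_eq_one_le (α := (ZMod (p ^ 2))ˣ) (n := p - 1) (by have := hp.two_le; omega)
    refine le_trans ?_ h1
    rw [← Fintype.card_coe S, ← Finset.card_univ, ← Finset.card_image_of_injective _ hf]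
    apply Finset.card_le_card
    intro u hu
    rw [Finset.mem_image] at hu
    obtain ⟨a, _, rfl⟩ := hu
    simp [hord a]
  have hsq : Real.sqrt ((p * p : ℕ) : ℝ) = p := by
    push_cast
    exact Real.sqrt_mul_self (Nat.cast_nonneg p)
  rw [hsq] at hScard
  have : (S.card : ℝ) ≤ ((p - 1 : ℕ) : ℝ) := by exact_mod_cast hcard
  have h9 : p < S.card := by exact_mod_cast hScard
  omega

/-- **Largest prime factor.** -/
theorem prime_factor_bound : ∃ N : ℕ, ∀ n : ℕ, N ≤ n →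
    (∀ r : ℕ, 1 ≤ r → (r : ℝ) ≤ (Real.logb 2 (n : ℝ)) ^ 2 →
          ((X : (ZMod n)[X]) ^ r - 1) ∣ ((1 + X) ^ n - (1 + X ^ n))) →
    ∀ p : ℕ, p.Prime → p ∣ n → p < n → p ^ 3 < n ^ 2 := by
  obtain ⟨x0, hx0⟩ := smooth_count
  obtain ⟨N, hN⟩ := exists_large (x0 + 2)
  refine ⟨max N 2, fun n hn hC p hp hpn hplt => ?_⟩
  have hn2 : 2 ≤ n := le_trans (le_max_right _ _) hn
  have hnN : N ≤ n := le_trans (le_max_left _ _) hn
  have hnp : ¬ n.Prime := by
    intro h
    have := (Nat.prime_dvd_prime_iff_eq hp h).mp hpn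
    omega
  have hF := fermat_all hn2 hnp hC
  have hplarge : x0 + 2 < p := by
    by_contra hle
    push Not at hle
    have h1 : (p : ℝ) ≤ ((x0 + 2 : ℕ) : ℝ) := by exact_mod_cast hle
    have h2 := hN n hnN
    exact (hF p hp (by linarith)).1 hpn
  obtain ⟨S, hS, hScard⟩ := hx0 p (by omega)
  have : Fact p.Prime := ⟨hp⟩
  obtain ⟨m, hm⟩ := hpn
  have hm2 : 2 ≤ m := by
    rcases Nat.lt_or_ge m 2 with h | h
    · interval_cases m <;> omega
    · exact h
  classical
  let f : S → ZMod p := fun a => ((a : ℕ) : ZMod p)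
  have hf : Function.Injective f := by
    intro a b hab
    simp only [f] at hab
    rw [ZMod.natCast_eq_natCast_iff] at hab
    exact Subtype.ext (Nat.ModEq.eq_of_lt_of_lt hab (hS a a.2).2.1 (hS b b.2).2.1)
  have hroot : ∀ a : S, f a ∈ (nthRoots (m - 1) (1 : ZMod p)).toFinset := by
    intro a
    obtain ⟨ha1, ha2, ha3⟩ := hS a a.2
    rw [Multiset.mem_toFinset, mem_nthRoots (by omega)]
    have h1 := smooth_fermat hF a ha1 fun q hq hqa =>
      le_trans (ha3 q hq hqa) (logb_sq_mono (by omega) hplt.le)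
    have h2 : (a : ℕ) ^ (n - 1) ≡ 1 [MOD p] := h1.of_dvd (Dvd.intro m hm.symm)
    rw [← ZMod.natCast_eq_natCast_iff] at h2
    push_cast at h2
    have h3 : f a ≠ 0 := by
      simp only [f, Ne, ZMod.natCast_eq_zero_iff]
      intro hd
      have := Nat.le_of_dvd (by omega) hd
      omega
    have h4 : f a ^ (p - 1) = 1 := ZMod.pow_card_sub_one_eq_one h3
    have h5 : n - 1 = (p - 1) * m + (m - 1) := by
      rw [hm]
      obtain ⟨p', rfl⟩ : ∃ p', p = p' + 1 := ⟨p - 1, by omega⟩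
      obtain ⟨m', rfl⟩ : ∃ m', m = m' + 1 := ⟨m - 1, by omega⟩
      simp only [Nat.add_sub_cancel]
      have : (p' + 1) * (m' + 1) = p' * (m' + 1) + (m' + 1) := by ring
      omega
    have h6 : f a ^ (n - 1) = 1 := h2
    rw [h5, pow_add, pow_mul, h4, one_pow, one_mul] at h6
    exact h6
  have hcard : S.card ≤ m - 1 := by
    have h1 : (nthRoots (m - 1) (1 : ZMod p)).toFinset.card ≤ m - 1 :=
      le_trans (Multiset.toFinset_card_le _) (card_nthRoots _ _)
    refine le_trans ?_ h1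
    rw [← Fintype.card_coe S, ← Finset.card_univ, ← Finset.card_image_of_injective _ hf]
    apply Finset.card_le_card
    intro u hu
    rw [Finset.mem_image] at hu
    obtain ⟨a, _, rfl⟩ := hu
    exact hroot a
  have h7 : Real.sqrt (p : ℝ) < (m : ℝ) := by
    have : (S.card : ℝ) ≤ (m : ℝ) := by exact_mod_cast (by omega : S.card ≤ m)
    linarith
  have h8 : (p : ℝ) < (m : ℝ) ^ 2 := by
    rw [Real.sqrt_lt' (by positivity)] at h7
    exact h7
  have h9 : p < m ^ 2 := by exact_mod_cast h8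
  have hp0 : 0 < p := hp.pos
  calc p ^ 3 = p ^ 2 * p := by ring
    _ < p ^ 2 * m ^ 2 := by
        apply Nat.mul_lt_mul_of_pos_left h9 (by positivity)
    _ = n ^ 2 := by rw [hm]; ring

end Pool.Agent.W_MP_420c7c_nt
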