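import Pool.Agent.W_MP_420c7c_nt.Fermat

set_option autoImplicit false
open Polynomial

namespace Pool.Agent.W_MP_420c7c_nt

/-- Condition (C) implies the Fermat condition for all prime bases `l ≤ (log₂ n)² / 2`, and that `n`
has no prime factor up to that bound. -/
theorem fermat_all {n : ℕ} (hn : 2 ≤ n) (hnp : ¬ n.Prime)
    (hC : ∀ r : ℕ, 1 ≤ r → (r : ℝ) ≤ (Real.logb 2 (n : ℝ)) ^ 2 →
          ((X : (ZMod n)[X]) ^ r - 1) ∣ ((1 + X) ^ n - (1 + X ^ n))) :
    ∀ l : ℕ, l.Prime → 2 * (l : ℝ) ≤ (Real.logb 2 (n : ℝ)) ^ 2 →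
      ¬ l ∣ n ∧ l ^ (n - 1) ≡ 1 [MOD n] := by
  have hn4 : 4 ≤ n := by
    rcases Nat.lt_or_ge n 4 with h | h
    · interval_cases n
      · exact absurd Nat.prime_two hnp
      · exact absurd Nat.prime_three hnp
    · exact h
  have hlog : 2 ≤ Real.logb 2 (n : ℝ) := by
    rw [Real.le_logb_iff_rpow_le (by norm_num) (by positivity)]
    norm_num
    exact_mod_cast hn4
  have hodd : Odd n := by
    by_contra hne
    have he : Even n := by simpa using hne
    have h2 := hC 2 (by norm_num) (by push_cast; nlinarith)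
    have := even_eq_two hn h2 he
    omega
  -- all smooth numbers satisfy a ^ n = a
  have hprime : ∀ l : ℕ, l.Prime → 2 * (l : ℝ) ≤ (Real.logb 2 (n : ℝ)) ^ 2 → ¬ l ∣ n →
      (l : ZMod n) ^ n = l := by
    intro l hl hle hnd
    exact (fermat_prime hn hodd hl (hC (2 * l) (by have := hl.pos; omega) (by push_cast; exact hle))).2 hnd
  have hmain : ∀ l : ℕ, l.Prime → 2 * (l : ℝ) ≤ (Real.logb 2 (n : ℝ)) ^ 2 → ¬ l ∣ n := by
    intro l hl hle hdvd
    have h0 := (fermat_prime hn hodd hl (hC (2 * l) (by have := hl.pos; omega) (by push_cast; exact hle))).1 hdvd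
    have h1 : n ∣ l ^ n := by
      rw [← ZMod.natCast_eq_zero_iff]
      push_cast
      exact h0
    obtain ⟨j, hj, hnj⟩ := (Nat.dvd_prime_pow hl).mp h1
    have hj2 : 2 ≤ j := by
      rcases Nat.lt_or_ge j 2 with h | h
      · interval_cases j
        · simp at hnj; omega
        · simp at hnj; rw [hnj] at hnp; exact absurd hl hnp
      · exact h
    have hl2 : l ^ 2 ∣ n := hnj ▸ pow_dvd_pow l hj2
    have hlodd : Odd l := Odd.of_dvd_nat hodd hdvd
    -- all a < l with a ≥ 1 satisfy a ^ n = a mod n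
    have hsm : ∀ a : ℕ, 1 ≤ a → a < l → (a : ZMod n) ^ n = a := by
      intro a
      induction a using Nat.recOnMul with
      | zero => intro h; omega
      | one => intro _ _; simp
      | prime q hq =>
        intro _ hql
        refine hprime q hq ?_ ?_
        · have : (q : ℝ) ≤ l := by exact_mod_cast hql.le
          linarith
        · intro hqn
          rw [hnj] at hqn
          have := (Nat.prime_dvd_prime_iff_eq hq hl).mp (hq.dvd_of_dvd_pow hqn)
          omega
      | mul a b iha ihb =>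
        intro h1 h2
        have ha : 1 ≤ a := by
          rcases Nat.eq_zero_or_pos a with h | h
          · subst h; simp at h1
          · exact h
        have hb : 1 ≤ b := by
          rcases Nat.eq_zero_or_pos b with h | h
          · subst h; simp at h1
          · exact h
        have ha' : a < l := lt_of_le_of_lt (Nat.le_mul_of_pos_right a hb) h2
        have hb' : b < l := lt_of_le_of_lt (Nat.le_mul_of_pos_left b ha) h2
        push_cast
        rw [mul_pow, iha ha ha', ihb hb hb']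
    have hl3 : 2 ≤ l := hl.two_le
    have h3 := hsm (l - 1) (by omega) (by omega)
    -- reduce modulo l ^ 2
    have h4 : ((l ^ 2 : ℕ) : ℤ) ∣ ((l : ℤ) - 1) ^ n - ((l : ℤ) - 1) := by
      have h41 : ((n : ℕ) : ℤ) ∣ ((l : ℤ) - 1) ^ n - ((l : ℤ) - 1) := by
        rw [← ZMod.intCast_zmod_eq_zero_iff_dvd]
        push_cast
        have : ((l - 1 : ℕ) : ZMod n) = (l : ZMod n) - 1 := by
          rw [Nat.cast_sub (by omega)]; simp
        rw [← this, h3, sub_self]
      exact dvd_trans (by exact_mod_cast hl2) h41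
    have h5 : ((l ^ 2 : ℕ) : ℤ) ∣ ((l : ℤ) - 1) ^ l - (-1) ^ l := by
      have := dvd_sub_pow_of_dvd_sub (R := ℤ) (p := l) (a := (l : ℤ) - 1) (b := -1) (by simp) 1
      push_cast
      simpa using this
    have h6 : ((l ^ 2 : ℕ) : ℤ) ∣ ((l : ℤ) - 1) ^ n - (-1) ^ n := by
      obtain ⟨m, hm⟩ := hdvd
      rw [hm, pow_mul, pow_mul]
      exact dvd_trans h5 (sub_dvd_pow_sub_pow _ _ m)
    rw [hodd.neg_one_pow] at h6
    have h7 : ((l ^ 2 : ℕ) : ℤ) ∣ (l : ℤ) := by
      have := dvd_sub h6 h4
      ring_nf at this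
      simpa using this
    have h8 : l ^ 2 ∣ l := by exact_mod_cast h7
    have h9 := Nat.le_of_dvd hl.pos h8
    nlinarith
  intro l hl hle
  have hnd := hmain l hl hle
  refine ⟨hnd, ?_⟩
  have h1 := hprime l hl hle hnd
  have hcop : Nat.Coprime l n := (Nat.Prime.coprime_iff_not_dvd hl).mpr hnd
  have hu : IsUnit (l : ZMod n) := (ZMod.isUnit_iff_coprime l n).mpr hcop
  have h2 : (l : ZMod n) ^ (n - 1) = 1 := by
    apply hu.mul_left_cancel
    rw [← pow_succ', mul_one, show n - 1 + 1 = n by omega, h1]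
  rw [← ZMod.natCast_eq_natCast_iff]
  push_cast
  exact h2

end Pool.Agent.W_MP_420c7c_nt
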