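import Mathlib

set_option autoImplicit false
open Polynomial

namespace Pool.Agent.W_MP_420c7c_nt

/-- evaluating the divisibility at a point of an algebra over `ZMod n`. -/
lemma eval_of_dvd {n r : ℕ} {S : Type*} [CommRing S] [Algebra (ZMod n) S]
    (h : ((X : (ZMod n)[X]) ^ r - 1) ∣ ((1 + X) ^ n - (1 + X ^ n)))
    {z : S} (hz : z ^ r = 1) : (1 + z) ^ n = 1 + z ^ n := by
  obtain ⟨q, hq⟩ := h
  have := congrArg (aeval z) hq
  simp only [map_sub, map_pow, map_add, map_one, aeval_X, map_mul, hz, sub_self, zero_mul] at this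
  exact sub_eq_zero.mp this

lemma even_eq_two {n : ℕ} (hn : 2 ≤ n)
    (h : ((X : (ZMod n)[X]) ^ 2 - 1) ∣ ((1 + X) ^ n - (1 + X ^ n))) (he : Even n) : n = 2 := by
  have h1 := eval_of_dvd (S := ZMod n) h (z := -1) (by ring)
  rw [he.neg_one_pow] at h1
  have h2 : (1 + (-1 : ZMod n)) ^ n = 0 := by
    rw [add_neg_cancel, zero_pow (by omega)]
  rw [h2] at h1
  have h3 : ((2 : ℕ) : ZMod n) = 0 := by
    push_cast
    rw [show (2 : ZMod n) = 1 + 1 by norm_num]
    exact h1.symm
  rw [ZMod.natCast_eq_zero_iff] at h3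
  exact le_antisymm (Nat.le_of_dvd (by norm_num) h3) hn

lemma natCast_zero_of_adjoinRoot {n : ℕ} [NeZero n] (hn : 2 ≤ n) (l : ℕ) (hl : l.Prime) (a : ZMod n)
    (h : (AdjoinRoot.of (cyclotomic l (ZMod n))) a = 0) : a = 0 := by
  have : Fact (1 < n) := ⟨by omega⟩
  have : Nontrivial (ZMod n) := ZMod.nontrivial n
  by_contra ha
  have h2 : (AdjoinRoot.mk (cyclotomic l (ZMod n))) (C a) = 0 := by
    simpa using h
  rw [AdjoinRoot.mk_eq_zero] at h2
  refine (cyclotomic.monic l (ZMod n)).not_dvd_of_degree_lt ?_ ?_ h2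
  · simpa using ha
  · rw [degree_C ha, degree_cyclotomic]
    exact_mod_cast Nat.totient_pos.mpr hl.pos

/-- The Fermat type condition for a prime `l` from the congruence modulo `X ^ (2 * l) - 1`. -/
lemma fermat_prime {n l : ℕ} (hn : 2 ≤ n) (hodd : Odd n) (hl : l.Prime)
    (h : ((X : (ZMod n)[X]) ^ (2 * l) - 1) ∣ ((1 + X) ^ n - (1 + X ^ n))) :
    (l ∣ n → ((l : ZMod n)) ^ n = 0) ∧ (¬ l ∣ n → (l : ZMod n) ^ n = l) := by
  have : NeZero n := ⟨by omega⟩
  have : Fact (l.Prime) := ⟨hl⟩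
  set g := cyclotomic l (ZMod n) with hg
  set gZ := cyclotomic l ℤ with hgZ
  have hprimeZ : Prime gZ := (cyclotomic.irreducible hl.pos).prime
  have : IsDomain (AdjoinRoot gZ) := AdjoinRoot.isDomain_of_prime hprimeZ
  -- the primitive root in characteristic zero
  have : CharZero (AdjoinRoot gZ) := by
    refine charZero_of_injective_algebraMap (R := ℤ) (A := AdjoinRoot gZ) ?_
    rw [injective_iff_map_eq_zero]
    intro a ha
    by_contra hne
    have h2 : (AdjoinRoot.mk gZ) (C a) = 0 := by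
      simpa using ha
    rw [AdjoinRoot.mk_eq_zero] at h2
    refine (cyclotomic.monic l ℤ).not_dvd_of_degree_lt ?_ ?_ h2
    · simpa using hne
    · rw [degree_C hne, degree_cyclotomic]
      exact_mod_cast Nat.totient_pos.mpr hl.pos
  have hprim : IsPrimitiveRoot (AdjoinRoot.root gZ) l := by
    have : NeZero ((l : ℕ) : AdjoinRoot gZ) := ⟨by exact_mod_cast hl.ne_zero⟩
    rw [← isRoot_cyclotomic_iff]
    have := AdjoinRoot.eval₂_root gZ
    rw [IsRoot.def, ← map_cyclotomic l (AdjoinRoot.of gZ), eval_map]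
    exact this
  obtain ⟨k, rfl⟩ : ∃ k, l = k + 1 := ⟨l - 1, by have := hl.pos; omega⟩
  -- the hom to the reduction
  let φ : AdjoinRoot gZ →+* AdjoinRoot g :=
    AdjoinRoot.lift (Int.castRingHom (AdjoinRoot g)) (AdjoinRoot.root g) (by
      have := AdjoinRoot.eval₂_root g
      rw [hgZ, eval₂_eq_eval_map, map_cyclotomic, ← map_cyclotomic (k+1) (AdjoinRoot.of g), eval_map]
      exact this)
  set y := AdjoinRoot.root g with hy
  have hφ : φ (AdjoinRoot.root gZ) = y := by simp [φ, hy]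
  have hyl : y ^ (k + 1) = 1 := by
    rw [← hφ, ← map_pow, hprim.pow_eq_one, map_one]
  have key : ∀ j : ℕ, (1 - y ^ j) ^ n = 1 - (y ^ n) ^ j := by
    intro j
    have := eval_of_dvd h (z := -(y ^ j)) (by
      rw [(show Even (2 * (k+1)) from even_two_mul _).neg_pow, ← pow_mul,
        show j * (2 * (k + 1)) = (k+1) * (2 * j) by ring, pow_mul, hyl, one_pow])
    rw [← sub_eq_add_neg, hodd.neg_pow, ← sub_eq_add_neg] at this
    rw [this, ← pow_mul, ← pow_mul, mul_comm]
  have prod1 : ∏ i ∈ Finset.range k, (1 - y ^ (i + 1)) = ((k : AdjoinRoot g) + 1) := by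
    have := congrArg φ hprim.prod_one_sub_pow_eq_order
    simpa [map_prod, hφ] using this
  have cast_inj : ∀ a : ZMod n, (AdjoinRoot.of g) a = 0 → a = 0 :=
    fun a ha => natCast_zero_of_adjoinRoot hn (k+1) hl a ha
  constructor
  · intro hdvd
    apply cast_inj
    obtain ⟨m, rfl⟩ := hdvd
    have hyn : y ^ ((k + 1) * m) = 1 := by rw [pow_mul, hyl, one_pow]
    have hk : 0 < k := by have := hl.two_le; omega
    have : (∏ i ∈ Finset.range k, (1 - y ^ (i + 1))) ^ ((k+1) * m) = 0 := by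
      rw [← Finset.prod_pow, Finset.prod_eq_zero (i := 0) (Finset.mem_range.mpr hk)]
      rw [key, hyn]; simp
    rw [prod1] at this
    simpa using this
  · intro hnd
    have hcop : n.Coprime (k + 1) := ((Nat.Prime.coprime_iff_not_dvd hl).mpr hnd).symm
    have hprim2 := hprim.pow_of_coprime n hcop
    have prod2 : ∏ i ∈ Finset.range k, (1 - (y ^ n) ^ (i + 1)) = ((k : AdjoinRoot g) + 1) := by
      have := congrArg φ hprim2.prod_one_sub_pow_eq_order
      simpa [map_prod, hφ] using this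
    have : (∏ i ∈ Finset.range k, (1 - y ^ (i + 1))) ^ n = (k : AdjoinRoot g) + 1 := by
      rw [← Finset.prod_pow, ← prod2]
      exact Finset.prod_congr rfl fun i _ => key (i + 1)
    rw [prod1] at this
    have h3 : (((k + 1 : ℕ) : ZMod n)) ^ n - ((k + 1 : ℕ) : ZMod n) = 0 := by
      apply cast_inj
      simp only [map_sub, map_pow, map_natCast]
      push_cast
      rw [this, sub_self]
    exact sub_eq_zero.mp h3

end Pool.Agent.W_MP_420c7c_nt
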